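import Pool.Agent.N708.MX.Stm2

/-!
# Project MX: `K` is asymptotically trivial in the operator norm
-/

set_option autoImplicit false

namespace Pool.Agent.N494.MX

open Filter Topology
open Pool.Agent.N708.MX
open scoped InnerProductSpace

noncomputable section

/-- unitary matrices give unitary operators -/
def uop {d : ℕ} (u : Matrix.unitaryGroup (Fin d) ℂ) :
    unitary (EuclideanSpace ℂ (Fin d) →L[ℂ] EuclideanSpace ℂ (Fin d)) :=
  ⟨op u, by
    have h1 := Matrix.mem_unitaryGroup_iff.mp u.2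
    have h2 := Matrix.mem_unitaryGroup_iff'.mp u.2
    refine Unitary.mem_iff.mpr ⟨?_, ?_⟩
    · change star (Matrix.toEuclideanCLM (𝕜 := ℂ) u.val) * Matrix.toEuclideanCLM (𝕜 := ℂ) u.val = 1
      rw [← map_star, ← map_mul, h2, map_one]
    · change Matrix.toEuclideanCLM (𝕜 := ℂ) u.val * star (Matrix.toEuclideanCLM (𝕜 := ℂ) u.val) = 1
      rw [← map_star, ← map_mul, h1, map_one]⟩

theorem op_norm {d : ℕ} (u : Matrix.unitaryGroup (Fin d) ℂ) (v : EuclideanSpace ℂ (Fin d)) :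
    ‖op u v‖ = ‖v‖ :=
  Unitary.norm_map (uop u) v

theorem op_inner {d : ℕ} (u : Matrix.unitaryGroup (Fin d) ℂ) (v w : EuclideanSpace ℂ (Fin d)) :
    ⟪op u v, op u w⟫_ℂ = ⟪v, w⟫_ℂ :=
  Unitary.inner_map_map (uop u) v w

section

variable {G : Type} [Group G] {l : Filter ℕ} {d : ℕ → ℕ}
  {U : ∀ n, G → Matrix.unitaryGroup (Fin (d n)) ℂ}

theorem ev_mul (hU : AH l d U) (g h : G) {ε : ℝ} (hε : 0 < ε) :
    ∀ᶠ n in l, ∀ v, ‖op (U n (g * h)) v - op (U n g) (op (U n h) v)‖ ≤ ε * ‖v‖ := by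
  have h1 := (hU g h).eventually (eventually_le_nhds hε)
  filter_upwards [h1] with n hn v
  have h2 : op (U n (g * h)) v - op (U n g) (op (U n h) v) =
      Matrix.toEuclideanCLM (𝕜 := ℂ) ((U n (g * h)).val - (U n g).val * (U n h).val) v := by
    rw [map_sub, map_mul]
    rfl
  rw [h2]
  refine (ContinuousLinearMap.le_opNorm _ _).trans ?_
  exact mul_le_mul_of_nonneg_right hn (norm_nonneg _)

theorem ev_one (hU : AH l d U) {ε : ℝ} (hε : 0 < ε) :
    ∀ᶠ n in l, ∀ v, ‖op (U n 1) v - v‖ ≤ ε * ‖v‖ := by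
  filter_upwards [ev_mul hU 1 1 hε] with n hn v
  rw [← op_norm (U n 1), map_sub, ← norm_neg, neg_sub]
  have := hn v
  rwa [one_mul] at this

/-- almost invariance of a family of subspaces -/
def AI (l : Filter ℕ) (d : ℕ → ℕ) (U : ∀ n, G → Matrix.unitaryGroup (Fin (d n)) ℂ)
    (S : ∀ n, Submodule ℂ (EuclideanSpace ℂ (Fin (d n)))) (g : G) : Prop :=
  ∀ ε : ℝ, 0 < ε → ∀ᶠ n in l, ∀ v ∈ S n, ∃ w ∈ S n, ‖op (U n g) v - w‖ ≤ ε * ‖v‖

variable {S : ∀ n, Submodule ℂ (EuclideanSpace ℂ (Fin (d n)))}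

theorem AI.mul (hU : AH l d U) {g h : G} (hg : AI l d U S g) (hh : AI l d U S h) :
    AI l d U S (g * h) := by
  intro ε hε
  set δ := min (ε / 4) 1 with hδ
  have hδ0 : 0 < δ := lt_min (by linarith) one_pos
  have hδ1 : δ ≤ 1 := min_le_right _ _
  have hδ2 : 4 * δ ≤ ε := by have := min_le_left (ε / 4) 1; rw [← hδ] at this; linarith
  filter_upwards [hg δ hδ0, hh δ hδ0, ev_mul hU g h hδ0] with n h1 h2 h3 v hv
  obtain ⟨w1, hw1, k1⟩ := h2 v hv
  obtain ⟨w2, hw2, k2⟩ := h1 w1 hw1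
  refine ⟨w2, hw2, ?_⟩
  have hv0 := norm_nonneg v
  have n1 : ‖w1‖ ≤ 2 * ‖v‖ := by
    have : ‖w1‖ ≤ ‖op (U n h) v‖ + ‖op (U n h) v - w1‖ := by
      have e : w1 = op (U n h) v - (op (U n h) v - w1) := by abel
      calc ‖w1‖ = ‖op (U n h) v - (op (U n h) v - w1)‖ := by rw [← e]
        _ ≤ _ := norm_sub_le _ _
    rw [op_norm] at this
    nlinarith
  have e : op (U n (g * h)) v - w2 = (op (U n (g * h)) v - op (U n g) (op (U n h) v)) +
      (op (U n g) (op (U n h) v - w1)) + (op (U n g) w1 - w2) := by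
    rw [map_sub]; abel
  rw [e]
  refine (norm_add₃_le).trans ?_
  rw [op_norm]
  have := h3 v
  nlinarith

theorem AI.one (hU : AH l d U) : AI l d U S 1 := by
  intro ε hε
  filter_upwards [ev_one hU hε] with n h1 v hv
  exact ⟨v, hv, h1 v⟩

theorem AI.inv_of (hU : AH l d U) {h : G}
    (hh : ∀ ε : ℝ, 0 < ε → ∀ᶠ n in l, ∀ v ∈ S n, ∃ w ∈ S n, ‖op (U n h) w - v‖ ≤ ε * ‖v‖) :
    AI l d U S h⁻¹ := by
  intro ε hε
  set δ := min (ε / 5) 1 with hδ
  have hδ0 : 0 < δ := lt_min (by linarith) one_pos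
  have hδ1 : δ ≤ 1 := min_le_right _ _
  have hδ2 : 5 * δ ≤ ε := by have := min_le_left (ε / 5) 1; rw [← hδ] at this; linarith
  filter_upwards [hh δ hδ0, ev_mul hU h⁻¹ h hδ0, ev_one hU hδ0] with n h1 h2 h3 v hv
  obtain ⟨w, hw, k1⟩ := h1 v hv
  refine ⟨w, hw, ?_⟩
  have hv0 := norm_nonneg v
  have n1 : ‖w‖ ≤ 2 * ‖v‖ := by
    rw [← op_norm (U n h) w]
    have : ‖op (U n h) w‖ ≤ ‖v‖ + ‖op (U n h) w - v‖ := by
      calc ‖op (U n h) w‖ = ‖v + (op (U n h) w - v)‖ := by congr 1; abel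
        _ ≤ _ := norm_add_le _ _
    nlinarith
  have k2 := h2 w
  have k3 := h3 w
  rw [inv_mul_cancel] at k2
  have e : op (U n h⁻¹) v - w = -(op (U n h⁻¹) (op (U n h) w - v)) +
      -(op (U n 1) w - op (U n h⁻¹) (op (U n h) w)) + (op (U n 1) w - w) := by
    rw [map_sub]; abel
  rw [e]
  refine (norm_add₃_le).trans ?_
  rw [norm_neg, norm_neg, op_norm]
  nlinarith

theorem AI.perp (hU : AH l d U) {g : G} (hg : AI l d U S g⁻¹) :
    AI l d U (fun n => (S n)ᗮ) g := by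
  intro ε hε
  set δ := ε / 2 with hδ
  have hδ0 : 0 < δ := by positivity
  filter_upwards [hg δ hδ0, ev_mul hU g g⁻¹ (half_pos hδ0), ev_one hU (half_pos hδ0)]
    with n h1 h2 h3 v hv
  set y := op (U n g) v with hy
  set x := (S n).starProjection y with hx
  have hxS : x ∈ S n := Submodule.starProjection_apply_mem _ _
  refine ⟨y - x, Submodule.sub_starProjection_mem_orthogonal _, ?_⟩
  have e0 : y - (y - x) = x := by abel
  rw [e0]
  obtain ⟨w, hw, k1⟩ := h1 x hxS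
  set u := op (U n g⁻¹) x with hu
  have k2 := h2 x
  have k3 := h3 x
  rw [mul_inv_cancel] at k2
  have k4 : ‖x - op (U n g) u‖ ≤ δ * ‖x‖ := by
    have : x - op (U n g) u = (op (U n 1) x - op (U n g) (op (U n g⁻¹) x)) -
        (op (U n 1) x - x) := by rw [hu]; abel
    rw [this]
    refine (norm_sub_le _ _).trans ?_
    linarith
  -- the square of the norm
  have i1 : ⟪x, y⟫_ℂ = ⟪x, x⟫_ℂ := by
    have : ⟪x, y - x⟫_ℂ = 0 := by
      have := Submodule.sub_starProjection_mem_orthogonal (K := S n) y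
      exact (Submodule.mem_orthogonal _ _).mp this x hxS
    rw [inner_sub_right, sub_eq_zero] at this
    exact this
  have i2 : ⟪x, y⟫_ℂ = ⟪u - w, v⟫_ℂ + ⟪x - op (U n g) u, y⟫_ℂ := by
    have j1 : ⟪op (U n g) u, y⟫_ℂ = ⟪u, v⟫_ℂ := op_inner _ _ _
    have j2 : ⟪w, v⟫_ℂ = 0 := (Submodule.mem_orthogonal _ _).mp hv w hw
    rw [inner_sub_left, inner_sub_left, j1, j2]
    ring
  have i3 : ‖x‖ ^ 2 ≤ ε * ‖v‖ * ‖x‖ := by
    have j3 : ‖⟪x, x⟫_ℂ‖ = ‖x‖ ^ 2 := by
      rw [inner_self_eq_norm_sq_to_K]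
      simp
    rw [← j3, ← i1, i2]
    refine (norm_add_le _ _).trans ?_
    have a1 := norm_inner_le_norm (𝕜 := ℂ) (u - w) v
    have a2 := norm_inner_le_norm (𝕜 := ℂ) (x - op (U n g) u) y
    have a3 : ‖y‖ = ‖v‖ := op_norm _ _
    rw [a3] at a2
    have a4 : ‖u - w‖ * ‖v‖ ≤ δ * ‖x‖ * ‖v‖ := mul_le_mul_of_nonneg_right k1 (norm_nonneg _)
    have a5 : ‖x - op (U n g) u‖ * ‖v‖ ≤ δ * ‖x‖ * ‖v‖ :=
      mul_le_mul_of_nonneg_right k4 (norm_nonneg _)
    have a6 : ε = 2 * δ := by rw [hδ]; ring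
    rw [a6]
    nlinarith
  rcases (norm_nonneg x).lt_or_eq with h0 | h0
  · have : ‖x‖ * ‖x‖ ≤ ε * ‖v‖ * ‖x‖ := by rw [← sq]; exact i3
    exact le_of_mul_le_mul_right this h0
  · rw [← h0]; positivity

end

/-- the sum of the squares of the columns -/
theorem sum_col {d : ℕ} (M : Matrix (Fin d) (Fin d) ℂ) :
    ∑ i, ‖Matrix.toEuclideanCLM (𝕜 := ℂ) M (EuclideanSpace.single i 1)‖ ^ 2 =
      (Matrix.trace (Matrix.conjTranspose M * M)).re := by
  rw [Matrix.trace, Complex.re_sum]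
  refine Finset.sum_congr rfl fun i _ => ?_
  rw [EuclideanSpace.norm_sq_eq, Matrix.diag_apply, Matrix.mul_apply, Complex.re_sum]
  refine Finset.sum_congr rfl fun j _ => ?_
  have : (Matrix.toEuclideanCLM (𝕜 := ℂ) M (EuclideanSpace.single i 1)) j = M j i := by
    have h := congrFun (Matrix.ofLp_toEuclideanCLM (𝕜 := ℂ) M (EuclideanSpace.single i (1 : ℂ))) j
    rw [h]
    simp
  rw [this, Matrix.conjTranspose_apply, ← Complex.normSq_eq_norm_sq, Complex.star_def]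
  rw [mul_comm, Complex.mul_conj]
  simp

theorem tendsto_of_ev {l : Filter ℕ} {f : ℕ → ℝ} (h0 : ∀ n, 0 ≤ f n)
    (h : ∀ ε : ℝ, 0 < ε → ∀ᶠ n in l, f n ≤ ε) : Tendsto f l (𝓝 0) := by
  rw [Metric.tendsto_nhds]
  intro ε hε
  filter_upwards [h (ε / 2) (by positivity)] with n hn
  rw [Real.dist_eq, sub_zero, abs_of_nonneg (h0 n)]
  linarith

theorem t_main : S_RANK → S_CMP → S_TRIV → S_MAIN := by
  intro hR hC hT K G _ _ φ ι h k γ hK hγ D l d U hU
  obtain ⟨θ, hθ, hR⟩ := hR K G φ ι h k γ hK hγ D.rel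
  have hAR : AR l (fun n => EuclideanSpace ℂ (Fin (d n))) (fun n g => uop (U n g)) := by
    intro g g'
    refine (hU g g').congr fun n => ?_
    change opn _ = ‖Matrix.toEuclideanCLM (𝕜 := ℂ) (U n (g * g')).val -
      Matrix.toEuclideanCLM (𝕜 := ℂ) (U n g).val * Matrix.toEuclideanCLM (𝕜 := ℂ) (U n g').val‖
    rw [opn, map_sub, map_mul]
  obtain ⟨V, hV1, hV2, hV3, hV4⟩ := hR l _ (fun n g => uop (U n g)) hAR
  have hV1' : ∀ n, ∀ v ∈ (V n)ᗮ, θ * ‖v‖ ^ 2 ≤
      ∑ s, ‖op (U n (ι (γ (FreeGroup.of s)))) v - v‖ ^ 2 := hV1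
  have hV2' : ∀ (a : K) (ε : ℝ), 0 < ε → ∀ᶠ n in l, ∀ v ∈ V n,
      ‖op (U n (ι a)) v - v‖ ≤ ε * ‖v‖ := hV2
  have hV3' : ∀ ε : ℝ, 0 < ε → ∀ᶠ n in l, ∀ v ∈ V n, ∃ w ∈ V n,
      ‖op (U n h) w - v‖ ≤ ε * ‖v‖ := hV3
  have hV4' : AI l d U V h := hV4
  -- almost invariance of `V`
  have hI : ∀ g : G, AI l d U V g ∧ AI l d U V g⁻¹ := by
    intro g
    have hg : g ∈ Subgroup.closure (Set.range ι ∪ {h}) := by rw [D.gen]; trivial
    refine Subgroup.closure_induction (p := fun g _ => AI l d U V g ∧ AI l d U V g⁻¹)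
      ?_ ?_ ?_ ?_ hg
    · rintro x (⟨a, rfl⟩ | hx)
      · have : ∀ a : K, AI l d U V (ι a) := by
          intro a ε hε
          filter_upwards [hV2' a ε hε] with n hn v hv
          exact ⟨v, hv, hn v hv⟩
        refine ⟨this a, ?_⟩
        rw [← map_inv]
        exact this _
      · rw [Set.mem_singleton_iff] at hx
        subst hx
        exact ⟨hV4', AI.inv_of hU hV3'⟩
    · rw [inv_one]
      exact ⟨AI.one hU, AI.one hU⟩
    · rintro x y _ _ ⟨hx, hx'⟩ ⟨hy, hy'⟩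
      rw [mul_inv_rev]
      exact ⟨AI.mul hU hx hy, AI.mul hU hy' hx'⟩
    · rintro x _ ⟨hx, hx'⟩
      rw [inv_inv]
      exact ⟨hx', hx⟩
  -- the claim
  have hcl : ∀ᶠ n in l, V n = ⊤ := by
    by_contra hcon
    have hfr : ∃ᶠ n in l, n ∈ {n | V n ≠ ⊤} := Filter.not_eventually.mp hcon
    have hne : NeBot (l ⊓ 𝓟 {n | V n ≠ ⊤}) := frequently_mem_iff_neBot.mp hfr
    set l' := l ⊓ 𝓟 {n | V n ≠ ⊤} with hl'
    have hll : l' ≤ l := inf_le_left
    have hmem : ∀ᶠ n in l', V n ≠ ⊤ := by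
      have : {n | V n ≠ ⊤} ∈ l' := mem_inf_of_right (mem_principal_self _)
      exact this
    have hU' : AH l' d U := fun g g' => (hU g g').mono_left hll
    obtain ⟨U', J, hAH, hJ, hcmp⟩ := hC G l' d U hU' (fun n => (V n)ᗮ) (by
      intro g ε hε
      exact ((hI g).2.perp hU ε hε).filter_mono hll)
    have htriv := hT K G φ ι h k γ hK hγ D l' (fun n => Module.finrank ℂ (V n)ᗮ) U' hAH
    have hsum : Tendsto (fun n => ∑ s, hs2 ((U' n (ι (γ (FreeGroup.of s)))).val - 1)) l'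
        (𝓝 0) := by
      have := tendsto_finsetSum (Finset.univ : Finset (Fin k))
        (fun s _ => htriv (γ (FreeGroup.of s)))
      simpa using this
    -- choose `ε`
    obtain ⟨ε, hε, hkε⟩ : ∃ ε : ℝ, 0 < ε ∧ 2 * k * ε ^ 2 ≤ θ / 2 := by
      refine ⟨min 1 (θ / (4 * (k + 1))), lt_min one_pos (by positivity), ?_⟩
      set e := min 1 (θ / (4 * ((k : ℝ) + 1))) with he
      have h0 : 0 < e := lt_min one_pos (by positivity)
      have h1 : e ≤ 1 := min_le_left _ _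
      have h2 : e ≤ θ / (4 * ((k : ℝ) + 1)) := min_le_right _ _
      rw [le_div_iff₀ (by positivity)] at h2
      have hk0 : (0 : ℝ) ≤ k := Nat.cast_nonneg k
      have h3 : e ^ 2 ≤ e := by nlinarith
      nlinarith [mul_le_mul_of_nonneg_left h3 hk0]
    have hev : ∀ᶠ n in l', ∀ s : Fin k, ∀ v,
        ‖op (U n (ι (γ (FreeGroup.of s)))) (J n v) -
          J n (op (U' n (ι (γ (FreeGroup.of s)))) v)‖ ≤ ε * ‖v‖ := by
      rw [Filter.eventually_all]
      intro s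
      exact hcmp _ ε hε
    have hlt := hsum.eventually (gt_mem_nhds (show (0 : ℝ) < θ / 4 by positivity))
    obtain ⟨n, h1, h2, h3⟩ := (hmem.and (hev.and hlt)).exists
    set e := Module.finrank ℂ (V n)ᗮ with he
    have he0 : 0 < e := by
      rw [he, Module.finrank_pos_iff]
      rw [Submodule.nontrivial_iff_ne_bot]
      intro hb
      exact h1 ((Submodule.orthogonal_eq_bot_iff).mp hb)
    -- the pointwise inequality
    have hpt : ∀ v, θ / 2 * ‖v‖ ^ 2 ≤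
        2 * ∑ s, ‖Matrix.toEuclideanCLM (𝕜 := ℂ) ((U' n (ι (γ (FreeGroup.of s)))).val - 1) v‖ ^ 2 := by
      intro v
      have a1 := hV1' n (J n v) (hJ n v)
      rw [(J n).norm_map] at a1
      have a2 : ∀ s : Fin k, ‖op (U n (ι (γ (FreeGroup.of s)))) (J n v) - J n v‖ ^ 2 ≤
          2 * (ε ^ 2 * ‖v‖ ^ 2) +
          2 * ‖Matrix.toEuclideanCLM (𝕜 := ℂ) ((U' n (ι (γ (FreeGroup.of s)))).val - 1) v‖ ^ 2 := by
        intro s
        have b1 := h2 s v
        set A := op (U n (ι (γ (FreeGroup.of s)))) (J n v) -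
          J n (op (U' n (ι (γ (FreeGroup.of s)))) v) with hA
        set B := Matrix.toEuclideanCLM (𝕜 := ℂ) ((U' n (ι (γ (FreeGroup.of s)))).val - 1) v with hB
        have b2 : op (U n (ι (γ (FreeGroup.of s)))) (J n v) - J n v = A + J n B := by
          have : B = op (U' n (ι (γ (FreeGroup.of s)))) v - v := by
            rw [hB, map_sub, map_one]
            rfl
          rw [this, hA, map_sub]
          abel
        have b3 : ‖A + J n B‖ ≤ ‖A‖ + ‖B‖ := by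
          refine (norm_add_le _ _).trans ?_
          rw [(J n).norm_map]
        rw [b2]
        have b4 : ‖A + J n B‖ ^ 2 ≤ (‖A‖ + ‖B‖) ^ 2 :=
          pow_le_pow_left₀ (norm_nonneg _) b3 2
        have b5 : ‖A‖ ^ 2 ≤ (ε * ‖v‖) ^ 2 := pow_le_pow_left₀ (norm_nonneg _) b1 2
        nlinarith [sq_nonneg (‖A‖ - ‖B‖)]
      have a3 := a1.trans (Finset.sum_le_sum fun s _ => a2 s)
      rw [Finset.sum_add_distrib, Finset.sum_const, Finset.card_univ, Fintype.card_fin,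
        nsmul_eq_mul, ← Finset.mul_sum] at a3
      have a4 : (k : ℝ) * (2 * (ε ^ 2 * ‖v‖ ^ 2)) ≤ θ / 2 * ‖v‖ ^ 2 := by
        have := mul_le_mul_of_nonneg_right hkε (sq_nonneg ‖v‖)
        linarith
      linarith
    -- summation over the basis
    have hb : θ / 2 * e ≤ 2 * ∑ s, (e : ℝ) * hs2 ((U' n (ι (γ (FreeGroup.of s)))).val - 1) := by
      have c1 : ∑ i : Fin e, θ / 2 * ‖(EuclideanSpace.single i (1 : ℂ) : EuclideanSpace ℂ (Fin e))‖ ^ 2
          ≤ ∑ i : Fin e, 2 * ∑ s, ‖Matrix.toEuclideanCLM (𝕜 := ℂ)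
            ((U' n (ι (γ (FreeGroup.of s)))).val - 1) (EuclideanSpace.single i 1)‖ ^ 2 :=
        Finset.sum_le_sum fun i _ => hpt _
      have c2 : ∑ i : Fin e, θ / 2 * ‖(EuclideanSpace.single i (1 : ℂ) : EuclideanSpace ℂ (Fin e))‖ ^ 2
          = θ / 2 * e := by
        simp [mul_comm]
      rw [c2] at c1
      refine c1.trans (le_of_eq ?_)
      rw [← Finset.mul_sum, Finset.sum_comm]
      congr 1
      refine Finset.sum_congr rfl fun s _ => ?_
      rw [sum_col]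
      have : (e : ℝ) ≠ 0 := by positivity
      rw [hs2, mul_div_cancel₀]
      exact this
    rw [← Finset.mul_sum] at hb
    have he1 : (0 : ℝ) < e := by exact_mod_cast he0
    have : θ / 4 ≤ ∑ s, hs2 ((U' n (ι (γ (FreeGroup.of s)))).val - 1) := by
      by_contra hc
      have := mul_lt_mul_of_pos_left (not_le.mp hc) he1
      nlinarith
    exact absurd h3 (not_lt.mpr this)
  intro a
  refine tendsto_of_ev (fun n => norm_nonneg _) fun ε hε => ?_
  filter_upwards [hcl, hV2' a ε hε] with n h1 h2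
  refine ContinuousLinearMap.opNorm_le_bound _ hε.le fun v => ?_
  have := h2 v (by rw [h1]; trivial)
  rw [map_sub, map_one]
  exact this

end

end Pool.Agent.N494.MX
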